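import Pool.Agent.H37.CTN.Stmts
import Pool.Agent.H2.CND.CNG

/-!
Row NC1 of the board `ctn`: conductors of `SL_n(q)`
-/

set_option autoImplicit false

namespace Pool.CND

theorem nc1_thm (h1 : S_FN3) (h2 : S_FN4) (h3 : S_N41) (h4 : S_N49) (h5 : S_GN1) (h6 : S_GN2) :
    S_NC1 := by
  intro p k F _ _ _ _ f q r m hp hcp hf hq hF hrm
  have hq0 : q ≠ 0 := by
    rw [hq]
    exact pow_ne_zero _ hp.ne_zero
  have hfin : Finite F := Nat.finite_of_card_ne_zero (by rw [hF]; exact hq0)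
  have hq2 : 2 ≤ q := by
    rw [hq]
    calc 2 ≤ p := hp.two_le
      _ = p ^ 1 := (pow_one p).symm
      _ ≤ p ^ f := Nat.pow_le_pow_right hp.pos hf
  have hm1 : 1 ≤ m := by omega
  obtain ⟨κ, hκ0, hκ1, hκ2⟩ := h2 k q r (r + m + 1) hq2 (by omega)
  obtain ⟨L, _, _, t, X, G₀, ρ, P, hR, hC, hO⟩ := h3 p k F f q r m κ hp hcp hf hq hF hm1 hκ0 hκ1
  obtain ⟨htr, hcond⟩ := h4 p k F L f q r m κ t X G₀ ρ P hp hcp hf hq hF hm1 hκ0 hR hC hO
  have htrans := h1 p k F L f q r m κ t X G₀ ρ hp hcp hf hq hF hm1 hR hC hκ0 hκ2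
  have htop : G₀ = ⊤ := by
    rcases hrm with hm | ⟨hr, hm⟩
    · exact h5 F r m G₀ hm htrans htr
    · subst hr hm
      exact h6 F G₀ htrans htr
  subst htop
  exact cond_mono k _ _ Subgroup.topEquiv ⟨L, _, _, ρ, t, hC.cov, P, hO.neg, hcond⟩

end Pool.CND
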